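import Mathlib
import Pool.Agent.N283.Pol.Ineq
import Pool.Agent.TH571.J141

/-!
# The reflection inequality for the modulus of joining curve families

The theorem `result` answers question Q1 of the problem in the positive.
-/

set_option autoImplicit false

open MeasureTheory Set Filter Topology Metric
open scoped ENNReal

namespace Pool.Agent.Results.MP_69cc0b_an.ReflectionInequality

/-- Euclidean `n`-space. -/
abbrev Eucl (n : ℕ) := EuclideanSpace ℝ (Fin n)

/-- A curve in the one-point compactification of `ℝⁿ`: a map which is continuous on a compact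
interval `[a, b]`. -/
structure Curve (n : ℕ) where
  a : ℝ
  b : ℝ
  le : a ≤ b
  toFun : ℝ → OnePoint (Eucl n)
  cont : ContinuousOn toFun (Icc a b)

/-- The family `Δ(A, B)` of all curves in the one-point compactification joining `A` and `B`. -/
def Delta {n : ℕ} (A B : Set (OnePoint (Eucl n))) : Set (Curve n) :=
  {γ | γ.toFun γ.a ∈ A ∧ γ.toFun γ.b ∈ B}

/-- The curve `γ` lies in `ℝⁿ`, where it is given by `g`. -/
def Curve.IsGivenBy {n : ℕ} (γ : Curve n) (g : ℝ → Eucl n) : Prop :=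
  ∀ t ∈ Icc γ.a γ.b, γ.toFun t = ((g t : Eucl n) : OnePoint (Eucl n))

/-- The length of `g` restricted to `[a, b]`. -/
noncomputable def length {n : ℕ} (g : ℝ → Eucl n) (a b : ℝ) : ℝ≥0∞ := eVariationOn g (Icc a b)

/-- The line integral `∫_γ ρ ds` over a path `γ : [a, b] → ℝⁿ` of finite length: the integral over
`[0, length of γ]` of `ρ ∘ γ_s`, where `γ_s` is the parametrization of `γ` by arc length. -/
noncomputable def lineIntegral {n : ℕ} (ρ : Eucl n → ℝ≥0∞) (g : ℝ → Eucl n) (a b : ℝ) : ℝ≥0∞ :=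
  ∫⁻ s in Icc 0 (length g a b).toReal, ρ (naturalParameterization g (Icc a b) a s)

/-- `ρ` is admissible for `Γ`: it is a Borel function with `∫_γ ρ ds ≥ 1` for every locally
rectifiable curve in `Γ` (a closed curve is locally rectifiable if and only if it lies in `ℝⁿ` and
has finite length). -/
def IsAdmissible {n : ℕ} (ρ : Eucl n → ℝ≥0∞) (Γ : Set (Curve n)) : Prop :=
  Measurable ρ ∧ ∀ γ ∈ Γ, ∀ g : ℝ → Eucl n, γ.IsGivenBy g → length g γ.a γ.b ≠ ⊤ →
    1 ≤ lineIntegral ρ g γ.a γ.b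

/-- The `n`-modulus of the curve family `Γ`. -/
noncomputable def modulus {n : ℕ} (Γ : Set (Curve n)) : ℝ≥0∞ :=
  ⨅ (ρ : Eucl n → ℝ≥0∞) (_ : IsAdmissible ρ Γ), ∫⁻ x, ρ x ^ n

/-- The set `A ⊆ ℝⁿ` as a subset of the one-point compactification. -/
def embed {n : ℕ} (A : Set (Eucl n)) : Set (OnePoint (Eucl n)) :=
  (fun x : Eucl n => (x : OnePoint (Eucl n))) '' A

/-- The last coordinate of `x ∈ ℝⁿ`. -/
def lastCoord {n : ℕ} (hn : 2 ≤ n) (x : Eucl n) : ℝ := x ⟨n - 1, by omega⟩

/-- The reflection in the hyperplane on which the last coordinate vanishes. -/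
noncomputable def reflect {n : ℕ} (hn : 2 ≤ n) (x : Eucl n) : Eucl n :=
  WithLp.toLp 2 (fun j => if j = (⟨n - 1, by omega⟩ : Fin n) then - x j else x j)

section aux

open Pool.Agent.TH221 Pool.Agent.TH221.J141

variable {n : ℕ}

/-- affine change of the parameter interval -/
lemma reparam {g : ℝ → Eucl n} {a b : ℝ} (hab : a ≤ b) (hg : ContinuousOn g (Icc a b))
    (hv : eVariationOn g (Icc a b) ≠ ⊤) :
    ∃ c : ℝ → Eucl n, ContinuousOn c (Icc 0 1) ∧ c 0 = g a ∧ c 1 = g b ∧
      eVariationOn c (Icc 0 1) ≠ ⊤ ∧ ∀ ρ : Eucl n → ℝ≥0∞, lineInt ρ c = lineIntegral ρ g a b := by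
  set φ : ℝ → ℝ := fun t => a + t * (b - a) with hφ
  have hφm : Monotone φ := fun s t hst => by
    simp only [hφ]
    have : 0 ≤ b - a := by linarith
    gcongr
  have hφmem : ∀ t ∈ Icc (0:ℝ) 1, φ t ∈ Icc a b := fun t ht => by
    simp only [hφ]
    constructor
    · nlinarith [ht.1]
    · nlinarith [ht.2]
  have hφ0 : φ 0 = a := by simp [hφ]
  have hφ1 : φ 1 = b := by simp [hφ]
  have himg : φ '' Icc 0 1 = Icc a b := by
    apply Subset.antisymm
    · rintro _ ⟨t, ht, rfl⟩
      exact hφmem t ht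
    · have := intermediate_value_Icc (zero_le_one (α := ℝ))
        (show ContinuousOn φ (Icc 0 1) by fun_prop)
      rwa [hφ0, hφ1] at this
  set c : ℝ → Eucl n := g ∘ φ with hc
  have hcc : ContinuousOn c (Icc 0 1) := hg.comp (by fun_prop) hφmem
  have hvar : eVariationOn c (Icc 0 1) = eVariationOn g (Icc a b) := by
    rw [hc, eVariationOn.comp_eq_of_monotoneOn g φ (hφm.monotoneOn _), himg]
  have hcv : eVariationOn c (Icc 0 1) ≠ ⊤ := by rwa [hvar]
  refine ⟨c, hcc, by rw [hc, Function.comp_apply, hφ0], by rw [hc, Function.comp_apply, hφ1], hcv,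
    fun ρ => ?_⟩
  unfold lineInt lineIntegral length
  rw [hvar]
  refine setLIntegral_congr_fun measurableSet_Icc fun s hs => ?_
  rw [← hvar, ← V_image hcc hcv] at hs
  obtain ⟨t, ht, rfl⟩ := hs
  have h1 : variationOnFromTo c (Icc 0 1) 0 t = variationOnFromTo g (Icc a b) a (φ t) := by
    rw [variationOnFromTo.eq_of_le _ _ ht.1, variationOnFromTo.eq_of_le _ _ (hφmem t ht).1, hc,
      eVariationOn.comp_inter_Icc_eq_of_monotoneOn g φ (hφm.monotoneOn _)
        (by simp : (0:ℝ) ∈ Icc (0:ℝ) 1) ht, himg, hφ0]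
  have h2 : naturalParameterization g (Icc a b) a (variationOnFromTo g (Icc a b) a (φ t)) =
      g (φ t) := by
    have := edist_naturalParameterization_eq_zero (f := g) (s := Icc a b)
      (BoundedVariationOn.locallyBoundedVariationOn hv) (a := a) ⟨le_rfl, hab⟩ (hφmem t ht)
    rwa [edist_eq_zero] at this
  show ρ (naturalParameterization c (Icc 0 1) 0 _) = ρ (naturalParameterization g (Icc a b) a _)
  rw [N_V hcv ht, h1, h2]
  rfl

lemma adm_iff {A B : Set (Eucl n)} {ρ : Eucl n → ℝ≥0∞} :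
    Adm ∅ A B ρ ↔ IsAdmissible ρ (Delta (embed A) (embed B)) := by
  constructor
  · rintro ⟨hm, h⟩
    refine ⟨hm, ?_⟩
    rintro ⟨a, b, hab, f, hf⟩ ⟨⟨x, hx, hfx⟩, ⟨y, hy, hfy⟩⟩ g hg hv
    simp only [Curve.IsGivenBy] at hg hfx hfy hv ⊢
    have hgc : ContinuousOn g (Icc a b) := by
      have h1 : ContinuousOn (fun t => ((g t : Eucl n) : OnePoint (Eucl n))) (Icc a b) :=
        hf.congr fun t ht => (hg t ht).symm
      have h2 : Topology.IsEmbedding (fun x : Eucl n => (x : OnePoint (Eucl n))) :=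
        OnePoint.isOpenEmbedding_coe.isEmbedding
      exact (h2.continuousOn_iff).2 h1
    obtain ⟨c, hc, hc0, hc1, hcv, hci⟩ := reparam hab hgc hv
    obtain ⟨γ, ℓ, hγ, hℓ, hγ0, hγ1, -, hcost⟩ := bridge_to_crv hc hcv
    have hgx : g a = x := by
      have := hg a ⟨le_rfl, hab⟩
      rw [← hfx] at this
      exact (OnePoint.coe_injective this).symm
    have hgy : g b = y := by
      have := hg b ⟨hab, le_rfl⟩
      rw [← hfy] at this
      exact (OnePoint.coe_injective this).symm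
    have hcrv : Crv univ ∅ x y γ ℓ :=
      ⟨hγ, hℓ, by rw [hγ0, hc0, hgx], by rw [hγ1, hc1, hgy], fun _ _ => mem_univ _, by simp⟩
    have := h _ hx _ hy γ ℓ hcrv
    rwa [← hcost ρ, hci ρ] at this
  · rintro ⟨hm, h⟩
    refine ⟨hm, fun x hx y hy γ ℓ hγ => ?_⟩
    obtain ⟨c, hc, h0, h1, hv, -, hcost⟩ := bridge_of_crv hγ
    have := h ⟨0, 1, zero_le_one, fun t => ((c t : Eucl n) : OnePoint (Eucl n)),
      OnePoint.continuous_coe.comp_continuousOn hc⟩
      ⟨⟨x, hx, by simp only [h0]⟩, ⟨y, hy, by simp only [h1]⟩⟩ c (fun t _ => rfl) hv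
    exact this.trans (hcost ρ hm)

end aux

/-- **Full answer to Q1.** For every `n ≥ 2` and all non-empty compact sets `E` in the open upper
half-space and `F` in the open lower half-space, the modulus of `Δ(E, F)` is at most the modulus of
`Δ(E, F*)`, where `F*` is the reflection of `F`. -/
theorem result : ∀ (n : ℕ) (hn : 2 ≤ n) (E F : Set (Eucl n)), E.Nonempty → F.Nonempty →
    IsCompact E → IsCompact F → (∀ x ∈ E, 0 < lastCoord hn x) → (∀ x ∈ F, lastCoord hn x < 0) →
    modulus (Delta (embed E) (embed F)) ≤ modulus (Delta (embed E) (embed (reflect hn '' F))) := by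
  intro n hn E F hEne _ hE hF hEp hFm
  refine le_iInf₂ fun ρ hρ => ?_
  have h1 : Pool.Agent.TH221.Adm ∅ E (reflect hn '' F) ρ := adm_iff.2 hρ
  refine le_trans ?_ (Pool.Agent.N283.Pol.ineq hn ⟨n - 1, by omega⟩ hE hF hEne hEp hFm h1)
  refine le_iInf₂ fun σ hσ => ?_
  exact iInf₂_le σ (adm_iff.1 hσ)

end Pool.Agent.Results.MP_69cc0b_an.ReflectionInequality
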